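import Mathlib

namespace Pool.Agent.Results.MP_8fed12_co.CoreVsTverberg

/-- `D_τ(S)`: the points that lie in the convex hull of every part of some partition of `S`
into `τ` pairwise disjoint parts. -/
def TverbergPts {d : ℕ} (τ : ℕ) (S : Set (Fin d → ℝ)) : Set (Fin d → ℝ) :=
  {p | ∃ P : Fin τ → Set (Fin d → ℝ),
      (∀ i j, i ≠ j → Disjoint (P i) (P j)) ∧ (⋃ i, P i) = S ∧ ∀ i, p ∈ convexHull ℝ (P i)}

/-- `core_σ(S)`: the intersection of the hulls `conv(S \ T)` over all `T ⊆ S` with `|T| ≤ σ`. -/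
def core {d : ℕ} (σ : ℕ) (S : Set (Fin d → ℝ)) : Set (Fin d → ℝ) :=
  {p | ∀ T : Finset (Fin d → ℝ), (T : Set (Fin d → ℝ)) ⊆ S → T.card ≤ σ →
      p ∈ convexHull ℝ (S \ (T : Set (Fin d → ℝ)))}

/-! ### The easy containment -/

theorem tverberg_subset_core {d : ℕ} (τ : ℕ) (hτ : 1 ≤ τ) (S : Set (Fin d → ℝ)) :
    TverbergPts τ S ⊆ core (τ - 1) S := by
  classical
  rintro p ⟨P, hdis, hun, hp⟩ T hTS hT
  -- some part avoids `T`
  have : ∃ i, Disjoint (P i) (T : Set (Fin d → ℝ)) := by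
    by_contra hcon
    push Not at hcon
    have hx : ∀ i, ∃ x, x ∈ P i ∧ x ∈ T := by
      intro i
      have := hcon i
      rw [Set.not_disjoint_iff] at this
      obtain ⟨x, hx1, hx2⟩ := this
      exact ⟨x, hx1, by simpa using hx2⟩
    choose f hf1 hf2 using hx
    have hinj : Function.Injective (fun i => (⟨f i, hf2 i⟩ : T)) := by
      intro i j hij
      by_contra hne
      have h1 : f i = f j := by simpa using hij
      have := (hdis i j hne)
      rw [Set.disjoint_left] at this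
      exact this (hf1 i) (h1 ▸ hf1 j)
    have := Fintype.card_le_of_injective _ hinj
    simp at this
    omega
  obtain ⟨i, hi⟩ := this
  refine convexHull_mono ?_ (hp i)
  intro x hx
  refine ⟨hun ▸ Set.mem_iUnion.2 ⟨i, hx⟩, fun hxT => ?_⟩
  exact (Set.disjoint_left.1 hi) hx hxT

theorem core_convex {d : ℕ} (σ : ℕ) (S : Set (Fin d → ℝ)) : Convex ℝ (core σ S) := by
  have : core σ S = ⋂ (T : Finset (Fin d → ℝ)) (_ : (T : Set (Fin d → ℝ)) ⊆ S) (_ : T.card ≤ σ),
      convexHull ℝ (S \ (T : Set (Fin d → ℝ))) := by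
    ext p
    simp [core]
  rw [this]
  exact convex_iInter fun T => convex_iInter fun _ => convex_iInter fun _ => convex_convexHull ℝ _

/-! ### Half-space lemmas -/

theorem exists_gt_of_mem_convexHull {d : ℕ} {A : Set (Fin d → ℝ)} {q : Fin d → ℝ}
    (g : (Fin d → ℝ) →ₗ[ℝ] ℝ) (c : ℝ) (hq : q ∈ convexHull ℝ A) (hg : c < g q) :
    ∃ a ∈ A, c < g a := by
  by_contra hcon
  push Not at hcon
  have hsub : A ⊆ {x | g x ≤ c} := fun a ha => hcon a ha
  have hconv : Convex ℝ {x | g x ≤ c} := convex_halfSpace_le g.isLinear c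
  have := convexHull_min hsub hconv hq
  simp only [Set.mem_ofPred_eq] at this
  linarith

theorem exists_lt_of_mem_convexHull {d : ℕ} {A : Set (Fin d → ℝ)} {q : Fin d → ℝ}
    (g : (Fin d → ℝ) →ₗ[ℝ] ℝ) (c : ℝ) (hq : q ∈ convexHull ℝ A) (hg : g q < c) :
    ∃ a ∈ A, g a < c := by
  obtain ⟨a, ha, h⟩ := exists_gt_of_mem_convexHull (-g) (-c) hq (by simpa using hg)
  exact ⟨a, ha, by simpa using h⟩

/-- The face lemma: if a functional is `≤ 0` on `A` and `≥ 0` at a point of the hull, then the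
point is in the hull of the zero face. -/
theorem face_lemma {d : ℕ} {A : Set (Fin d → ℝ)} {q : Fin d → ℝ}
    (g : (Fin d → ℝ) →ₗ[ℝ] ℝ) (hA : ∀ a ∈ A, g a ≤ 0) (hq : q ∈ convexHull ℝ A)
    (hg : 0 ≤ g q) : q ∈ convexHull ℝ {a ∈ A | g a = 0} := by
  set A0 : Set (Fin d → ℝ) := {a ∈ A | g a = 0} with hA0
  set A1 : Set (Fin d → ℝ) := {a ∈ A | g a < 0} with hA1
  have hAu : A = A0 ∪ A1 := by
    ext a
    simp only [hA0, hA1, Set.mem_union, Set.mem_ofPred_eq]
    constructor
    · intro ha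
      rcases lt_or_eq_of_le (hA a ha) with h | h
      · exact Or.inr ⟨ha, h⟩
      · exact Or.inl ⟨ha, h⟩
    · rintro (⟨h, _⟩ | ⟨h, _⟩) <;> exact h
  rcases Set.eq_empty_or_nonempty A0 with h0 | h0
  · exfalso
    have hsub : A ⊆ {x | g x < 0} := by
      intro a ha
      rw [hAu, h0, Set.empty_union] at ha
      exact ha.2
    have := convexHull_min hsub (convex_halfSpace_lt g.isLinear 0) hq
    simp only [Set.mem_ofPred_eq] at this
    linarith
  rcases Set.eq_empty_or_nonempty A1 with h1 | h1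
  · rwa [hAu, h1, Set.union_empty] at hq
  rw [hAu, convexHull_union h0 h1] at hq
  rw [mem_convexJoin] at hq
  obtain ⟨x, hx, y, hy, hxy⟩ := hq
  have hgx : g x = 0 := by
    have hsub : A0 ⊆ {x | g x = 0} := fun a ha => ha.2
    exact convexHull_min hsub (convex_hyperplane g.isLinear 0) hx
  have hgy : g y < 0 := by
    have hsub : A1 ⊆ {x | g x < 0} := fun a ha => ha.2
    exact convexHull_min hsub (convex_halfSpace_lt g.isLinear 0) hy
  obtain ⟨a, b, ha, hb, hab, rfl⟩ := hxy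
  rw [map_add, map_smul, map_smul, hgx] at hg
  simp only [smul_eq_mul, mul_zero, zero_add] at hg
  have hb0 : b = 0 := by
    by_contra hne
    have : 0 < b := lt_of_le_of_ne hb (Ne.symm hne)
    nlinarith
  subst hb0
  have ha1 : a = 1 := by linarith
  subst ha1
  simpa using hx

theorem pos_of_forall_pos {d : ℕ} {A : Set (Fin d → ℝ)} {q : Fin d → ℝ}
    (g : (Fin d → ℝ) →ₗ[ℝ] ℝ) (hq : q ∈ convexHull ℝ A) (hA : ∀ a ∈ A, 0 < g a) : 0 < g q := by
  have hsub : A ⊆ {x | 0 < g x} := fun a ha => hA a ha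
  exact convexHull_min hsub (convex_halfSpace_gt g.isLinear 0) hq

/-! ### The points -/

/-- The points of the configuration: `pt 0` is the origin, `pt n = (-1)^n (1, n, 0, …, 0)` for
`1 ≤ n < 2τ`; for `n ≥ 2τ` the point has third coordinate `-1`. -/
noncomputable def pt (d τ n : ℕ) : Fin d → ℝ := fun j =>
  if n < 2 * τ then
    (if n = 0 then 0 else
      if (j : ℕ) = 0 then (-1) ^ n else if (j : ℕ) = 1 then (-1) ^ n * n else 0)
  else
    (if (j : ℕ) = 0 then n else if (j : ℕ) = 1 then 0 else if (j : ℕ) = 2 then -1 else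
      if n = 2 * τ + j then 1 else 0)

/-- the planar functional `v ↦ α v₀ + β v₁` -/
noncomputable def G {d : ℕ} (hd : 3 ≤ d) (α β : ℝ) : (Fin d → ℝ) →ₗ[ℝ] ℝ :=
  α • LinearMap.proj (⟨0, by omega⟩ : Fin d) + β • LinearMap.proj (⟨1, by omega⟩ : Fin d)

theorem G_apply {d : ℕ} (hd : 3 ≤ d) (α β : ℝ) (v : Fin d → ℝ) :
    G hd α β v = α * v ⟨0, by omega⟩ + β * v ⟨1, by omega⟩ := by
  simp [G]

theorem pt_zero (d τ : ℕ) (hτ : 3 ≤ τ) : pt d τ 0 = 0 := by
  funext j
  simp only [pt, Pi.zero_apply]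
  rw [if_pos (by omega)]
  simp

theorem G_pt {d : ℕ} (hd : 3 ≤ d) (α β : ℝ) (τ n : ℕ) (h0 : n ≠ 0) (hn : n < 2 * τ) :
    G hd α β (pt d τ n) = (-1) ^ n * (α + β * n) := by
  rw [G_apply]
  simp only [pt]
  rw [if_pos hn, if_neg h0, if_pos hn, if_neg h0]
  simp
  ring

theorem sgn (n : ℕ) : ((-1 : ℝ)) ^ n * (-1) ^ n = 1 := by
  rw [← pow_add, ← two_mul, pow_mul]; simp

theorem pt_third_planar {d : ℕ} (hd : 3 ≤ d) (τ n : ℕ) (hn : n < 2 * τ) :
    pt d τ n ⟨2, by omega⟩ = 0 := by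
  simp only [pt]
  rw [if_pos hn]
  simp

theorem pt_third_low {d : ℕ} (hd : 3 ≤ d) (τ n : ℕ) (hn : ¬ n < 2 * τ) :
    pt d τ n ⟨2, by omega⟩ = -1 := by
  simp only [pt]
  rw [if_neg hn]
  simp

theorem pt_injective {d : ℕ} (hd : 3 ≤ d) (τ : ℕ) : Function.Injective (pt d τ) := by
  intro n m h
  have h0 : pt d τ n ⟨0, by omega⟩ = pt d τ m ⟨0, by omega⟩ := by rw [h]
  have h1 : pt d τ n ⟨1, by omega⟩ = pt d τ m ⟨1, by omega⟩ := by rw [h]
  have h2 : pt d τ n ⟨2, by omega⟩ = pt d τ m ⟨2, by omega⟩ := by rw [h]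
  by_cases hn : n < 2 * τ
  · by_cases hm : m < 2 * τ
    · simp only [pt, if_pos hn, if_pos hm] at h0 h1
      by_cases n0 : n = 0
      · by_cases m0 : m = 0
        · omega
        · exfalso
          rw [if_pos n0, if_neg m0] at h0
          simp only [if_true] at h0
          exact absurd h0.symm (pow_ne_zero _ (by norm_num))
      · by_cases m0 : m = 0
        · exfalso
          rw [if_neg n0, if_pos m0] at h0
          simp only [if_true] at h0
          exact absurd h0 (pow_ne_zero _ (by norm_num))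
        · rw [if_neg n0, if_neg m0] at h0 h1
          simp at h0 h1
          rw [h0] at h1
          have hne : ((-1 : ℝ)) ^ m ≠ 0 := by
            exact pow_ne_zero _ (by norm_num)
          have := mul_left_cancel₀ hne h1
          exact_mod_cast this
    · exfalso
      rw [pt_third_planar hd τ n hn, pt_third_low hd τ m hm] at h2
      norm_num at h2
  · by_cases hm : m < 2 * τ
    · exfalso
      rw [pt_third_low hd τ n hn, pt_third_planar hd τ m hm] at h2
      norm_num at h2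
    · simp only [pt, if_neg hn, if_neg hm] at h0
      simpa using h0

/-! ### Depth of the origin -/

theorem triple {d : ℕ} (τ i j k : ℕ) (hi : i ≠ 0) (hij : i < j) (hjk : j < k)
    (hk : k < 2 * τ) (e1 : (-1 : ℝ) ^ j = -(-1) ^ i) (e2 : (-1 : ℝ) ^ k = (-1) ^ i)
    (A : Set (Fin d → ℝ)) (hA1 : pt d τ i ∈ A) (hA2 : pt d τ j ∈ A) (hA3 : pt d τ k ∈ A) :
    (0 : Fin d → ℝ) ∈ convexHull ℝ A := by
  have hC := convex_convexHull ℝ A
  have m1 := subset_convexHull ℝ A hA1
  have m2 := subset_convexHull ℝ A hA2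
  have m3 := subset_convexHull ℝ A hA3
  have hki : (0 : ℝ) < (k : ℝ) - i := by
    have : (i : ℝ) < k := by exact_mod_cast hij.trans hjk
    linarith
  have hji : (0 : ℝ) < (j : ℝ) - i := by
    have : (i : ℝ) < j := by exact_mod_cast hij
    linarith
  have hkj : (0 : ℝ) < (k : ℝ) - j := by
    have : (j : ℝ) < k := by exact_mod_cast hjk
    linarith
  have hsum : ((k : ℝ) - j) / (k - i) + ((j : ℝ) - i) / (k - i) = 1 := by
    rw [← add_div]
    rw [div_eq_one_iff_eq hki.ne']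
    ring
  have hy := hC m1 m3 (div_pos hkj hki).le (div_pos hji hki).le hsum
  have h0 := hC hy m2 (show (0 : ℝ) ≤ 1 / 2 by norm_num) (show (0 : ℝ) ≤ 1 / 2 by norm_num)
    (by norm_num)
  convert h0 using 1
  funext l
  have hj0 : j ≠ 0 := by omega
  have hk0 : k ≠ 0 := by omega
  simp only [pt, Pi.zero_apply, Pi.add_apply, Pi.smul_apply, smul_eq_mul]
  rw [if_pos (show i < 2 * τ by omega), if_pos (show j < 2 * τ by omega), if_pos hk,
    if_neg hi, if_neg hj0, if_neg hk0, e1, e2]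
  by_cases l0 : (l : ℕ) = 0
  · simp only [l0, if_true]
    have : (((k : ℝ) - j) / (k - i)) * (-1) ^ i + (((j : ℝ) - i) / (k - i)) * (-1) ^ i
        = (-1) ^ i := by
      rw [← add_mul, hsum, one_mul]
    rw [this]; ring
  · by_cases l1 : (l : ℕ) = 1
    · simp only [l1, if_true, if_neg one_ne_zero]
      have : (((k : ℝ) - j) / (k - i)) * ((-1) ^ i * i) + (((j : ℝ) - i) / (k - i)) * ((-1) ^ i * k)
          = (-1) ^ i * j := by
        field_simp
        ring
      rw [this]; ring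
    · simp [l0, l1]

theorem planar_core {d : ℕ} (hd : 3 ≤ d) (τ : ℕ) (hτ : 3 ≤ τ) (T : Finset ℕ)
    (hT : T.card ≤ τ - 1) :
    (0 : Fin d → ℝ) ∈ convexHull ℝ (pt d τ '' {n | n < 2 * τ ∧ n ∉ T}) := by
  by_cases h0 : 0 ∈ T
  swap
  · exact subset_convexHull ℝ _ ⟨0, ⟨by omega, h0⟩, pt_zero d τ hτ⟩
  have hcard : (T.erase 0).card ≤ τ - 2 := by
    rw [Finset.card_erase_of_mem h0]; omega
  have hA : ∃ a, 1 ≤ a ∧ a ≤ τ - 1 ∧ 2 * a - 1 ∉ T ∧ 2 * a ∉ T := by
    by_contra hcon
    push Not at hcon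
    have hsub : Finset.Icc 1 (τ - 1) ⊆ (T.erase 0).image (fun n => (n + 1) / 2) := by
      intro a ha
      rw [Finset.mem_Icc] at ha
      rw [Finset.mem_image]
      by_cases h : 2 * a - 1 ∈ T
      · exact ⟨2 * a - 1, Finset.mem_erase.2 ⟨by omega, h⟩, by omega⟩
      · exact ⟨2 * a, Finset.mem_erase.2 ⟨by omega, hcon a ha.1 ha.2 h⟩, by omega⟩
    have h1 := Finset.card_le_card hsub
    have h2 := Finset.card_image_le (s := T.erase 0) (f := fun n => (n + 1) / 2)
    rw [Nat.card_Icc] at h1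
    omega
  have hB : ∃ b, 1 ≤ b ∧ b ≤ τ - 1 ∧ 2 * b ∉ T ∧ 2 * b + 1 ∉ T := by
    by_contra hcon
    push Not at hcon
    have hsub : Finset.Icc 1 (τ - 1) ⊆ (T.erase 0).image (fun n => n / 2) := by
      intro a ha
      rw [Finset.mem_Icc] at ha
      rw [Finset.mem_image]
      by_cases h : 2 * a ∈ T
      · exact ⟨2 * a, Finset.mem_erase.2 ⟨by omega, h⟩, by omega⟩
      · exact ⟨2 * a + 1, Finset.mem_erase.2 ⟨by omega, hcon a ha.1 ha.2 h⟩, by omega⟩
    have h1 := Finset.card_le_card hsub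
    have h2 := Finset.card_image_le (s := T.erase 0) (f := fun n => n / 2)
    rw [Nat.card_Icc] at h1
    omega
  obtain ⟨a, ha1, ha2, ha3, ha4⟩ := hA
  obtain ⟨b, hb1, hb2, hb3, hb4⟩ := hB
  have hodd : (-1 : ℝ) ^ (2 * a - 1) = -1 := Odd.neg_one_pow ⟨a - 1, by omega⟩
  have hev : (-1 : ℝ) ^ (2 * a) = 1 := Even.neg_one_pow ⟨a, by omega⟩
  have hev' : (-1 : ℝ) ^ (2 * b) = 1 := Even.neg_one_pow ⟨b, by omega⟩
  have hodd' : (-1 : ℝ) ^ (2 * b + 1) = -1 := Odd.neg_one_pow ⟨b, by omega⟩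
  rcases le_or_gt a b with hab | hab
  · refine triple τ (2 * a - 1) (2 * a) (2 * b + 1) (by omega) (by omega) (by omega) (by omega)
      (by rw [hodd, hev]; norm_num) (by rw [hodd, hodd']) _ ⟨_, ⟨by omega, ha3⟩, rfl⟩
      ⟨_, ⟨by omega, ha4⟩, rfl⟩ ⟨_, ⟨by omega, hb4⟩, rfl⟩
  · refine triple τ (2 * b) (2 * b + 1) (2 * a) (by omega) (by omega) (by omega) (by omega)
      (by rw [hodd', hev']) (by rw [hev, hev']) _ ⟨_, ⟨by omega, hb3⟩, rfl⟩
      ⟨_, ⟨by omega, hb4⟩, rfl⟩ ⟨_, ⟨by omega, ha4⟩, rfl⟩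

/-! ### The planar set has no Tverberg points -/

theorem exists_pos_functional {d : ℕ} (hd : 3 ≤ d) (τ : ℕ) (N : Finset ℕ) (hN : N.card ≤ 2)
    (hN' : ∀ n ∈ N, n ≠ 0 ∧ n < 2 * τ) :
    ∃ α β : ℝ, ∀ n ∈ N, 0 < G hd α β (pt d τ n) := by
  have hcases : N.card = 0 ∨ N.card = 1 ∨ N.card = 2 := by omega
  rcases hcases with h | h | h
  · rw [Finset.card_eq_zero] at h
    subst h
    exact ⟨0, 0, fun n hn => absurd hn (Finset.notMem_empty n)⟩
  · rw [Finset.card_eq_one] at h
    obtain ⟨i, rfl⟩ := h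
    refine ⟨(-1) ^ i, 0, fun n hn => ?_⟩
    rw [Finset.mem_singleton] at hn
    subst hn
    obtain ⟨h1, h2⟩ := hN' n (Finset.mem_singleton_self n)
    rw [G_pt hd _ _ τ n h1 h2]
    have := sgn n
    nlinarith
  · rw [Finset.card_eq_two] at h
    obtain ⟨i, j, hij, rfl⟩ := h
    obtain ⟨hi1, hi2⟩ := hN' i (by simp)
    obtain ⟨hj1, hj2⟩ := hN' j (by simp)
    by_cases hpar : (-1 : ℝ) ^ i = (-1) ^ j
    · refine ⟨(-1) ^ i, 0, fun n hn => ?_⟩
      have hn' : (-1 : ℝ) ^ n = (-1) ^ i := by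
        rcases Finset.mem_insert.1 hn with h | h
        · rw [h]
        · rw [Finset.mem_singleton.1 h, hpar]
      obtain ⟨h1, h2⟩ := hN' n hn
      rw [G_pt hd _ _ τ n h1 h2, hn']
      have := sgn i
      nlinarith
    · have hji : (-1 : ℝ) ^ j = -(-1) ^ i := by
        rcases neg_one_pow_eq_or ℝ i with h1 | h1 <;> rcases neg_one_pow_eq_or ℝ j with h2 | h2 <;>
          rw [h1, h2] at hpar ⊢ <;> simp at hpar ⊢
      have hne : (i : ℝ) - j ≠ 0 := by
        intro h
        apply hij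
        have : (i : ℝ) = j := by linarith
        exact_mod_cast this
      have hpos : 0 < ((i : ℝ) - j) ^ 2 := by positivity
      refine ⟨-((-1) ^ i * ((i : ℝ) - j) * (i + j) / 2), (-1) ^ i * ((i : ℝ) - j), fun n hn => ?_⟩
      rcases Finset.mem_insert.1 hn with h | h
      · subst h
        rw [G_pt hd _ _ τ n hi1 hi2]
        have hs := sgn n
        have : (-1 : ℝ) ^ n * (-((-1) ^ n * ((n : ℝ) - j) * (n + j) / 2) + (-1) ^ n * ((n : ℝ) - j) * n)
            = ((-1 : ℝ) ^ n * (-1) ^ n) * (((n : ℝ) - j) ^ 2 / 2) := by ring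
        rw [this, hs]
        linarith
      · rw [Finset.mem_singleton] at h
        subst h
        rw [G_pt hd _ _ τ n hj1 hj2, hji]
        have hs := sgn i
        have : -(-1 : ℝ) ^ i * (-((-1) ^ i * ((i : ℝ) - n) * (i + n) / 2) + (-1) ^ i * ((i : ℝ) - n) * n)
            = ((-1 : ℝ) ^ i * (-1) ^ i) * (((i : ℝ) - n) ^ 2 / 2) := by ring
        rw [this, hs]
        linarith

theorem no_tverberg {d : ℕ} (hd : 3 ≤ d) (τ : ℕ) (hτ : 3 ≤ τ) (Q : Fin τ → Set (Fin d → ℝ))
    (hdis : ∀ i j, i ≠ j → Disjoint (Q i) (Q j))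
    (hsub : ∀ i, ∀ a ∈ Q i, ∃ n, n < 2 * τ ∧ pt d τ n = a)
    (q : Fin d → ℝ) (hq : ∀ i, q ∈ convexHull ℝ (Q i)) : False := by
  classical
  set x : ℝ := q ⟨0, by omega⟩ with hx
  set y : ℝ := q ⟨1, by omega⟩ with hy
  by_cases hxy : x = 0 ∧ y = 0
  · -- the origin case
    obtain ⟨hx0, hy0⟩ := hxy
    let N : Fin τ → Finset ℕ := fun i => (Finset.range (2 * τ)).filter
      (fun n => n ≠ 0 ∧ pt d τ n ∈ Q i)
    have hNdis : ∀ i ∈ (Finset.univ : Finset (Fin τ)), ∀ j ∈ (Finset.univ : Finset (Fin τ)),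
        i ≠ j → Disjoint (N i) (N j) := by
      intro i _ j _ hij
      rw [Finset.disjoint_left]
      intro n hn hn'
      simp only [N, Finset.mem_filter] at hn hn'
      exact (Set.disjoint_left.1 (hdis i j hij)) hn.2.2 hn'.2.2
    have hcard : ∑ i, (N i).card ≤ 2 * τ - 1 := by
      rw [← Finset.card_biUnion hNdis]
      have hs : Finset.univ.biUnion N ⊆ (Finset.range (2 * τ)).erase 0 := by
        intro n hn
        rw [Finset.mem_biUnion] at hn
        obtain ⟨i, _, hn⟩ := hn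
        simp only [N, Finset.mem_filter] at hn
        exact Finset.mem_erase.2 ⟨hn.2.1, hn.1⟩
      have := Finset.card_le_card hs
      rwa [Finset.card_erase_of_mem (Finset.mem_range.2 (by omega)), Finset.card_range] at this
    have h3 : ∀ i, (0 : Fin d → ℝ) ∉ Q i → 3 ≤ (N i).card := by
      intro i hi
      by_contra hlt
      have hle : (N i).card ≤ 2 := by omega
      obtain ⟨α, β, hG⟩ := exists_pos_functional hd τ (N i) hle (by
        intro n hn
        simp only [N, Finset.mem_filter, Finset.mem_range] at hn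
        exact ⟨hn.2.1, hn.1⟩)
      have hpos := pos_of_forall_pos (G hd α β) (hq i) (by
        intro a ha
        obtain ⟨n, hn, rfl⟩ := hsub i a ha
        apply hG
        simp only [N, Finset.mem_filter, Finset.mem_range]
        refine ⟨hn, ?_, ha⟩
        rintro rfl
        rw [pt_zero d τ hτ] at ha
        exact hi ha)
      rw [G_apply] at hpos
      rw [← hx, ← hy, hx0, hy0] at hpos
      simp at hpos
    have hle : ∑ i, (if (0 : Fin d → ℝ) ∈ Q i then 0 else 3) ≤ ∑ i, (N i).card := by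
      apply Finset.sum_le_sum
      intro i _
      split_ifs with h
      · omega
      · exact h3 i h
    have hone : (Finset.univ.filter (fun i : Fin τ => (0 : Fin d → ℝ) ∈ Q i)).card ≤ 1 := by
      rw [Finset.card_le_one]
      intro i hi j hj
      by_contra hij
      rw [Finset.mem_filter] at hi hj
      exact (Set.disjoint_left.1 (hdis i j hij)) hi.2 hj.2
    have hsum : ∑ i : Fin τ, (if (0 : Fin d → ℝ) ∈ Q i then 0 else 3)
        = 3 * (Finset.univ.filter (fun i : Fin τ => ¬ (0 : Fin d → ℝ) ∈ Q i)).card := by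
      rw [Finset.sum_ite]
      simp [mul_comm]
    have hcompl := Finset.card_filter_add_card_filter_not (s := (Finset.univ : Finset (Fin τ)))
      (fun i : Fin τ => (0 : Fin d → ℝ) ∈ Q i)
    rw [Finset.card_univ, Fintype.card_fin] at hcompl
    omega
  · -- a point `q ≠ 0`
    have hb : ∃ n : ℕ, (n = 1 ∨ n = 2) ∧ (-1 : ℝ) ^ n * y - (-1) ^ n * n * x ≠ 0 := by
      by_contra hcon
      push Not at hcon
      have h1 := hcon 1 (Or.inl rfl)
      have h2 := hcon 2 (Or.inr rfl)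
      norm_num at h1 h2
      apply hxy
      constructor <;> linarith
    obtain ⟨nb, hnb, hD⟩ := hb
    have hnb0 : nb ≠ 0 := by omega
    have hnb2 : nb < 2 * τ := by omega
    set D : ℝ := (-1 : ℝ) ^ nb * y - (-1) ^ nb * nb * x with hDdef
    set α : ℝ := (y - 2 * ((-1) ^ nb * nb)) / D with hα
    set β : ℝ := (2 * (-1) ^ nb - x) / D with hβ
    have hgb : G hd α β (pt d τ nb) = 1 := by
      rw [G_pt hd _ _ τ nb hnb0 hnb2, hα, hβ]
      field_simp
      rw [hDdef]
      ring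
    have hgq : G hd α β q = 2 := by
      rw [G_apply, ← hx, ← hy, hα, hβ]
      field_simp
      rw [hDdef]
      ring
    have hg0 : G hd α β 0 = 0 := map_zero _
    let A0 : Finset ℕ := (Finset.range (2 * τ)).filter (fun n => G hd α β (pt d τ n) < 1)
    let A1 : Finset ℕ := (Finset.range (2 * τ)).filter (fun n => 1 < G hd α β (pt d τ n))
    have hA1 : τ ≤ A1.card := by
      have hex : ∀ i : Fin τ, ∃ n, n ∈ A1 ∧ pt d τ n ∈ Q i := by
        intro i
        obtain ⟨a, ha, hga⟩ := exists_gt_of_mem_convexHull (G hd α β) 1 (hq i) (by rw [hgq]; norm_num)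
        obtain ⟨n, hn, rfl⟩ := hsub i a ha
        exact ⟨n, Finset.mem_filter.2 ⟨Finset.mem_range.2 hn, hga⟩, ha⟩
      choose f hf1 hf2 using hex
      have hinj : Function.Injective (fun i => (⟨f i, hf1 i⟩ : A1)) := by
        intro i j hij
        by_contra hne
        have h1 : f i = f j := by simpa using hij
        exact (Set.disjoint_left.1 (hdis i j hne)) (hf2 i) (h1 ▸ hf2 j)
      have := Fintype.card_le_of_injective _ hinj
      simpa using this
    have hA0 : τ ≤ A0.card := by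
      by_contra hlt
      have hcore := planar_core hd τ hτ A0 (by omega)
      obtain ⟨a, ha, hga⟩ := exists_lt_of_mem_convexHull (G hd α β) 1 hcore (by rw [hg0]; norm_num)
      obtain ⟨n, ⟨hn1, hn2⟩, rfl⟩ := ha
      exact hn2 (Finset.mem_filter.2 ⟨Finset.mem_range.2 hn1, hga⟩)
    have hdisj : Disjoint A0 A1 := by
      rw [Finset.disjoint_left]
      intro n h1 h2
      have h1' := (Finset.mem_filter.1 h1).2
      have h2' := (Finset.mem_filter.1 h2).2
      linarith
    have hnot : nb ∉ A0 ∪ A1 := by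
      rw [Finset.mem_union]
      rintro (h | h)
      · have := (Finset.mem_filter.1 h).2
        rw [hgb] at this
        exact lt_irrefl _ this
      · have := (Finset.mem_filter.1 h).2
        rw [hgb] at this
        exact lt_irrefl _ this
    have hsub2 : insert nb (A0 ∪ A1) ⊆ Finset.range (2 * τ) := by
      intro n hn
      rw [Finset.mem_insert, Finset.mem_union] at hn
      rcases hn with rfl | h | h
      · exact Finset.mem_range.2 hnb2
      · exact (Finset.mem_filter.1 h).1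
      · exact (Finset.mem_filter.1 h).1
    have hc := Finset.card_le_card hsub2
    rw [Finset.card_insert_of_notMem hnot, Finset.card_union_of_disjoint hdisj,
      Finset.card_range] at hc
    omega

/-! ### Assembly -/

theorem size_ineq {d τ : ℕ} (hd : 3 ≤ d) (hτ : 3 ≤ τ) : 2 * τ + d ≤ (τ - 1) * (d + 1) + 1 := by
  obtain ⟨t, rfl⟩ : ∃ t, τ = t + 3 := ⟨τ - 3, by omega⟩
  obtain ⟨e, rfl⟩ : ∃ e, d = e + 3 := ⟨d - 3, by omega⟩
  have : t + 3 - 1 = t + 2 := by omega
  rw [this]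
  ring_nf
  nlinarith [Nat.zero_le (t * e)]

theorem span_top {d : ℕ} (hd : 3 ≤ d) (τ : ℕ) (hτ : 3 ≤ τ) (N : ℕ) (hN : 2 * τ + d ≤ N) :
    affineSpan ℝ (pt d τ '' {n | n < N}) = ⊤ := by
  have h0mem : (0 : Fin d → ℝ) ∈ pt d τ '' {n | n < N} := ⟨0, by
    show 0 < N
    omega, pt_zero d τ hτ⟩
  rw [AffineSubspace.affineSpan_eq_top_iff_vectorSpan_eq_top_of_nonempty ℝ _ _ ⟨0, h0mem⟩,
    vectorSpan_eq_span_vsub_set_right ℝ h0mem]
  simp only [vsub_eq_sub, sub_zero, Set.image_id']
  set V := Submodule.span ℝ (pt d τ '' {n | n < N}) with hV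
  have hmem : ∀ n, n < N → pt d τ n ∈ V := fun n hn => Submodule.subset_span ⟨n, hn, rfl⟩
  have e0 : (Pi.single (⟨0, by omega⟩ : Fin d) (1 : ℝ)) ∈ V := by
    have h := V.neg_mem (V.add_mem (V.smul_mem (2 : ℝ) (hmem 1 (by omega))) (hmem 2 (by omega)))
    convert h using 1
    funext l
    simp only [pt, Pi.neg_apply, Pi.add_apply, Pi.smul_apply, smul_eq_mul, Pi.single_apply,
      Fin.ext_iff]
    rw [if_pos (show 1 < 2 * τ by omega), if_pos (show 2 < 2 * τ by omega)]
    by_cases l0 : (l : ℕ) = 0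
    · simp [l0]; norm_num
    · by_cases l1 : (l : ℕ) = 1
      · simp [l1]
      · simp [l0, l1]
  have e1 : (Pi.single (⟨1, by omega⟩ : Fin d) (1 : ℝ)) ∈ V := by
    have h := V.add_mem (hmem 1 (by omega)) (hmem 2 (by omega))
    convert h using 1
    funext l
    simp only [pt, Pi.add_apply, Pi.single_apply, Fin.ext_iff]
    rw [if_pos (show 1 < 2 * τ by omega), if_pos (show 2 < 2 * τ by omega)]
    by_cases l0 : (l : ℕ) = 0
    · simp [l0]
    · by_cases l1 : (l : ℕ) = 1
      · simp [l1]; norm_num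
      · simp [l0, l1]
  have e2 : (Pi.single (⟨2, by omega⟩ : Fin d) (1 : ℝ)) ∈ V := by
    have h := V.sub_mem (V.smul_mem ((2 * τ : ℕ) : ℝ) e0) (hmem (2 * τ) (by omega))
    convert h using 1
    funext l
    simp only [pt, Pi.sub_apply, Pi.smul_apply, smul_eq_mul, Pi.single_apply, Fin.ext_iff]
    rw [if_neg (show ¬ 2 * τ < 2 * τ by omega)]
    by_cases l0 : (l : ℕ) = 0
    · simp [l0]
    · by_cases l1 : (l : ℕ) = 1
      · simp [l1]
      · by_cases l2 : (l : ℕ) = 2
        · simp [l2]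
        · simp [l0, l1, l2]
  rw [eq_top_iff, ← (Pi.basisFun ℝ (Fin d)).span_eq, Submodule.span_le]
  rintro v ⟨j, rfl⟩
  rw [Pi.basisFun_apply]
  show Pi.single j (1 : ℝ) ∈ V
  by_cases j0 : (j : ℕ) = 0
  · have : j = ⟨0, by omega⟩ := Fin.ext j0
    rw [this]; exact e0
  by_cases j1 : (j : ℕ) = 1
  · have : j = ⟨1, by omega⟩ := Fin.ext j1
    rw [this]; exact e1
  by_cases j2 : (j : ℕ) = 2
  · have : j = ⟨2, by omega⟩ := Fin.ext j2
    rw [this]; exact e2
  have hj := j.2
  have h := V.add_mem (V.sub_mem (hmem (2 * τ + j) (by omega))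
    (V.smul_mem ((2 * τ + (j : ℕ) : ℕ) : ℝ) e0)) e2
  convert h using 1
  funext l
  simp only [pt, Pi.add_apply, Pi.sub_apply, Pi.smul_apply, smul_eq_mul, Pi.single_apply,
    Fin.ext_iff]
  rw [if_neg (show ¬ 2 * τ + (j : ℕ) < 2 * τ by omega)]
  by_cases l0 : (l : ℕ) = 0
  · have : ¬ ((0 : ℕ) = (j : ℕ)) := fun h => j0 h.symm
    simp [l0, this]
  · by_cases l1 : (l : ℕ) = 1
    · have : ¬ ((1 : ℕ) = (j : ℕ)) := fun h => j1 h.symm
      simp [l1, this]
    · by_cases l2 : (l : ℕ) = 2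
      · have : ¬ ((2 : ℕ) = (j : ℕ)) := fun h => j2 h.symm
        simp [l2, this]
      · by_cases lj : (l : ℕ) = (j : ℕ)
        · simp [l0, l1, l2, lj, j0, j1, j2]
        · have : ¬ ((j : ℕ) = (l : ℕ)) := fun h => lj h.symm
          simp [l0, l1, l2, lj, this]

/-- For every `d ≥ 3` and every `τ ≥ 3` there is a set `S` of exactly
`(τ-1)(d+1)+1` points affinely spanning `ℝ^d` with `conv D_τ(S) ⊊ core_{τ-1}(S)`. -/
theorem three_le (d τ : ℕ) (hd : 3 ≤ d) (hτ : 3 ≤ τ) :
    ∃ S : Finset (Fin d → ℝ), S.card = (τ - 1) * (d + 1) + 1 ∧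
      affineSpan ℝ (S : Set (Fin d → ℝ)) = ⊤ ∧
      convexHull ℝ (TverbergPts τ (S : Set (Fin d → ℝ))) ⊂
        core (τ - 1) (S : Set (Fin d → ℝ)) := by
  classical
  set N := (τ - 1) * (d + 1) + 1 with hN
  have hNle : 2 * τ + d ≤ N := size_ineq hd hτ
  set S : Finset (Fin d → ℝ) := (Finset.range N).image (pt d τ) with hS
  have hScoe : (S : Set (Fin d → ℝ)) = pt d τ '' {n | n < N} := by
    rw [hS, Finset.coe_image]
    congr 1
    ext n
    simp
  refine ⟨S, ?_, ?_, ?_⟩
  · rw [hS, Finset.card_image_of_injective _ (pt_injective hd τ), Finset.card_range]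
  · rw [hScoe]
    exact span_top hd τ hτ N hNle
  · rw [Set.ssubset_iff_subset_ne]
    constructor
    · exact convexHull_min (tverberg_subset_core τ (by omega) _) (core_convex _ _)
    · intro heq
      -- the origin is in the core
      have h0 : (0 : Fin d → ℝ) ∈ core (τ - 1) (S : Set (Fin d → ℝ)) := by
        intro T hTS hT
        let T' : Finset ℕ := (Finset.range (2 * τ)).filter (fun n => pt d τ n ∈ T)
        have hT' : T'.card ≤ τ - 1 := by
          refine le_trans ?_ hT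
          refine Finset.card_le_card_of_injOn (pt d τ) ?_ ((pt_injective hd τ).injOn)
          intro n hn
          exact (Finset.mem_filter.1 (Finset.mem_coe.1 hn)).2
        refine convexHull_mono ?_ (planar_core hd τ hτ T' hT')
        rintro a ⟨n, ⟨hn1, hn2⟩, rfl⟩
        refine ⟨?_, ?_⟩
        · rw [hScoe]
          exact ⟨n, by
            show n < N
            omega, rfl⟩
        · intro hmem
          exact hn2 (Finset.mem_filter.2 ⟨Finset.mem_range.2 hn1, by simpa using hmem⟩)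
      rw [← heq] at h0
      -- all Tverberg points have negative third coordinate
      have hneg : TverbergPts τ (S : Set (Fin d → ℝ)) ⊆
          {v | (LinearMap.proj (R := ℝ) (φ := fun _ : Fin d => ℝ) (⟨2, by omega⟩ : Fin d)) v < 0} := by
        rintro q ⟨P, hdis, hun, hq⟩
        by_contra hcon
        have hq2 : 0 ≤ (LinearMap.proj (R := ℝ) (φ := fun _ : Fin d => ℝ)
            (⟨2, by omega⟩ : Fin d)) q := by
          by_contra h
          exact hcon (lt_of_not_ge h)
        have hmemS : ∀ i, ∀ a ∈ P i, ∃ n, n < N ∧ pt d τ n = a := by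
          intro i a ha
          have : a ∈ (S : Set (Fin d → ℝ)) := hun ▸ Set.mem_iUnion.2 ⟨i, ha⟩
          rw [hScoe] at this
          obtain ⟨n, hn, rfl⟩ := this
          exact ⟨n, hn, rfl⟩
        have hface : ∀ i, q ∈ convexHull ℝ {a ∈ P i | (LinearMap.proj (R := ℝ)
            (φ := fun _ : Fin d => ℝ) (⟨2, by omega⟩ : Fin d)) a = 0} := by
          intro i
          refine face_lemma _ ?_ (hq i) hq2
          intro a ha
          obtain ⟨n, hn, rfl⟩ := hmemS i a ha
          by_cases hn2 : n < 2 * τ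
          · have := pt_third_planar hd τ n hn2
            simp only [LinearMap.proj_apply]
            rw [this]
          · have := pt_third_low hd τ n hn2
            simp only [LinearMap.proj_apply]
            rw [this]; norm_num
        refine no_tverberg hd τ hτ _ ?_ ?_ q hface
        · intro i j hij
          refine Set.disjoint_of_subset ?_ ?_ (hdis i j hij)
          · exact fun a ha => ha.1
          · exact fun a ha => ha.1
        · rintro i a ⟨ha, ha2⟩
          obtain ⟨n, hn, rfl⟩ := hmemS i a ha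
          refine ⟨n, ?_, rfl⟩
          by_contra hn2
          have := pt_third_low hd τ n hn2
          simp only [LinearMap.proj_apply] at ha2
          rw [this] at ha2
          norm_num at ha2
      have := convexHull_min hneg (convex_halfSpace_lt (LinearMap.isLinear _) 0) h0
      simp at this

/-! ### The case `τ = 2`, dimension at least four -/

/-- the affine functional `x ↦ l₀ x₀ + l₁ x₁ + l₂ x₂ + k` (linear part) -/
noncomputable def H {d : ℕ} (hd : 4 ≤ d) (a b c : ℝ) : (Fin d → ℝ) →ₗ[ℝ] ℝ :=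
  a • LinearMap.proj (⟨0, by omega⟩ : Fin d) + b • LinearMap.proj (⟨1, by omega⟩ : Fin d) +
    c • LinearMap.proj (⟨2, by omega⟩ : Fin d)

/-- points of the prism configuration: `(u, ε)` with `u ∈ {(0,0), (1,0), (0,1)}`,
`ε = ±1`, and then points `(0, 0, -k)` with `k ≥ 2`. -/
noncomputable def pr (d n : ℕ) : Fin d → ℝ := fun j =>
  if (j : ℕ) = 0 then (if n = 1 ∨ n = 4 then 1 else 0)
  else if (j : ℕ) = 1 then (if n = 2 ∨ n = 5 then 1 else 0)
  else if (j : ℕ) = 2 then (if n < 3 then 1 else if n < 6 then -1 else -(n : ℝ))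
  else 0

theorem H_apply {d : ℕ} (hd : 4 ≤ d) (a b c : ℝ) (n : ℕ) :
    H hd a b c (pr d n) = a * (if n = 1 ∨ n = 4 then 1 else 0) + b * (if n = 2 ∨ n = 5 then 1 else 0)
      + c * (if n < 3 then 1 else if n < 6 then -1 else -(n : ℝ)) := by
  simp [H, pr]

theorem pr_injective {d : ℕ} (hd : 4 ≤ d) : Function.Injective (pr d) := by
  intro n m h
  have h0 : pr d n ⟨0, by omega⟩ = pr d m ⟨0, by omega⟩ := by rw [h]
  have h1 : pr d n ⟨1, by omega⟩ = pr d m ⟨1, by omega⟩ := by rw [h]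
  have h2 : pr d n ⟨2, by omega⟩ = pr d m ⟨2, by omega⟩ := by rw [h]
  simp only [pr] at h0 h1 h2
  norm_num at h0 h1 h2
  by_cases hn : n < 6 <;> by_cases hm : m < 6
  · interval_cases n <;> interval_cases m <;> simp_all <;> norm_num at *
  · have : ¬ m < 3 := by omega
    have hm6 : (6 : ℝ) ≤ m := by exact_mod_cast (not_lt.1 hm)
    exfalso
    rw [if_neg this, if_neg hm] at h2
    split_ifs at h2 <;> linarith
  · have : ¬ n < 3 := by omega
    have hm6 : (6 : ℝ) ≤ n := by exact_mod_cast (not_lt.1 hn)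
    exfalso
    rw [if_neg this, if_neg hn] at h2
    split_ifs at h2 <;> linarith
  · have h3 : ¬ n < 3 := by omega
    have h4 : ¬ m < 3 := by omega
    rw [if_neg h3, if_neg h4, if_neg hn, if_neg hm] at h2
    have : (n : ℝ) = m := by linarith
    exact_mod_cast this

/-- For every `d ≥ 4` there is a set `S ⊆ ℝ^d` of exactly `d + 2` points with
`conv D_2(S) ⊊ core_1(S)`. -/
theorem two (d : ℕ) (hd : 4 ≤ d) :
    ∃ S : Finset (Fin d → ℝ), S.card = (2 - 1) * (d + 1) + 1 ∧
      convexHull ℝ (TverbergPts 2 (S : Set (Fin d → ℝ))) ⊂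
        core (2 - 1) (S : Set (Fin d → ℝ)) := by
  classical
  set N := (2 - 1) * (d + 1) + 1 with hN
  have hN6 : 6 ≤ N := by omega
  set S : Finset (Fin d → ℝ) := (Finset.range N).image (pr d) with hS
  have hScoe : (S : Set (Fin d → ℝ)) = pr d '' {n | n < N} := by
    rw [hS, Finset.coe_image]
    congr 1
    ext n
    simp
  refine ⟨S, ?_, ?_⟩
  · rw [hS, Finset.card_image_of_injective _ (pr_injective hd), Finset.card_range]
  rw [Set.ssubset_iff_subset_ne]
  refine ⟨convexHull_min (tverberg_subset_core 2 (by omega) _) (core_convex _ _), fun heq => ?_⟩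
  -- the point `p = (1/3, 1/3, 1/3, 0, …)`
  let p : Fin d → ℝ := (1 / 3 : ℝ) • (pr d 0 + pr d 1 + pr d 5)
  have hsix : ∀ a b c : ℕ, (a < N ∧ b < N ∧ c < N) →
      (1 / 3 : ℝ) • (pr d a + pr d b + pr d c) = p → ∀ T : Finset (Fin d → ℝ), pr d a ∉ T →
      pr d b ∉ T → pr d c ∉ T → p ∈ convexHull ℝ ((S : Set (Fin d → ℝ)) \ (T : Set (Fin d → ℝ))) := by
    intro a b c habc hp T ha hb hc
    have hm : ∀ n, n < N → pr d n ∉ T →
        pr d n ∈ convexHull ℝ ((S : Set (Fin d → ℝ)) \ (T : Set (Fin d → ℝ))) := by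
      intro n hn hT
      apply subset_convexHull
      refine ⟨?_, by simpa using hT⟩
      rw [hScoe]
      exact ⟨n, hn, rfl⟩
    have hC := convex_convexHull ℝ ((S : Set (Fin d → ℝ)) \ (T : Set (Fin d → ℝ)))
    have h1 := hC (hm a habc.1 ha) (hm b habc.2.1 hb) (show (0 : ℝ) ≤ 1 / 2 by norm_num)
      (show (0 : ℝ) ≤ 1 / 2 by norm_num) (by norm_num)
    have h2 := hC h1 (hm c habc.2.2 hc) (show (0 : ℝ) ≤ 2 / 3 by norm_num)
      (show (0 : ℝ) ≤ 1 / 3 by norm_num) (by norm_num)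
    rw [← hp]
    convert h2 using 1
    module
  have e1 : (1 / 3 : ℝ) • (pr d 0 + pr d 1 + pr d 5) = p := rfl
  have e2 : (1 / 3 : ℝ) • (pr d 0 + pr d 4 + pr d 2) = p := by
    funext j
    simp only [p, pr, Pi.smul_apply, Pi.add_apply]
    by_cases j0 : (j : ℕ) = 0
    · simp [j0]
    · by_cases j1 : (j : ℕ) = 1
      · simp [j1]
      · by_cases j2 : (j : ℕ) = 2
        · simp [j2]
        · simp [j0, j1, j2]
  have e3 : (1 / 3 : ℝ) • (pr d 3 + pr d 1 + pr d 2) = p := by
    funext j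
    simp only [p, pr, Pi.smul_apply, Pi.add_apply]
    by_cases j0 : (j : ℕ) = 0
    · simp [j0]
    · by_cases j1 : (j : ℕ) = 1
      · simp [j1]
      · by_cases j2 : (j : ℕ) = 2
        · simp [j2]
        · simp [j0, j1, j2]
  have hp : p ∈ core (2 - 1) (S : Set (Fin d → ℝ)) := by
    intro T hTS hT
    have hT1 : T.card ≤ 1 := by omega
    rw [Finset.card_le_one] at hT1
    have hne : ∀ n m : ℕ, n ≠ m → pr d n ∈ T → pr d m ∉ T := by
      intro n m hnm hn hm
      exact hnm (pr_injective hd (hT1 _ hn _ hm))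
    by_cases h0 : pr d 0 ∈ T
    · exact hsix 3 1 2 ⟨by omega, by omega, by omega⟩ e3 T (hne 0 3 (by omega) h0)
        (hne 0 1 (by omega) h0) (hne 0 2 (by omega) h0)
    by_cases h1 : pr d 1 ∈ T
    · exact hsix 0 4 2 ⟨by omega, by omega, by omega⟩ e2 T (hne 1 0 (by omega) h1)
        (hne 1 4 (by omega) h1) (hne 1 2 (by omega) h1)
    by_cases h5 : pr d 5 ∈ T
    · exact hsix 0 4 2 ⟨by omega, by omega, by omega⟩ e2 T (hne 5 0 (by omega) h5)
        (hne 5 4 (by omega) h5) (hne 5 2 (by omega) h5)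
    exact hsix 0 1 5 ⟨by omega, by omega, by omega⟩ e1 T h0 h1 h5
  rw [← heq] at hp
  -- all Radon points have third coordinate `≤ 0`
  have hle : TverbergPts 2 (S : Set (Fin d → ℝ)) ⊆ {v | H hd 0 0 1 v ≤ 0} := by
    rintro q ⟨P, hdis, hun, hq⟩
    -- signs
    let c : ℕ → ℝ := fun i => if pr d i ∈ P 0 then 1 else -1
    have hd01 : ∀ n, pr d n ∈ P 0 → pr d n ∉ P 1 := fun n h0 h1 =>
      (Set.disjoint_left.1 (hdis 0 1 (by decide))) h0 h1
    have hmemS : ∀ i, ∀ a ∈ P i, ∃ n, n < N ∧ pr d n = a := by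
      intro i a ha
      have : a ∈ (S : Set (Fin d → ℝ)) := hun ▸ Set.mem_iUnion.2 ⟨i, ha⟩
      rw [hScoe] at this
      obtain ⟨n, hn, rfl⟩ := this
      exact ⟨n, hn, rfl⟩
    -- functional on `P 0`: `z ≤ c₀ (1 - x - y) + c₁ x + c₂ y`
    have key : ∀ (i : Fin 2) (c0 c1 c2 : ℝ), (pr d 0 ∈ P i → c0 = 1) → (pr d 1 ∈ P i → c1 = 1) →
        (pr d 2 ∈ P i → c2 = 1) → -1 ≤ c0 → -1 ≤ c1 → -1 ≤ c2 →
        H hd (c0 - c1) (c0 - c2) 1 q ≤ c0 := by
      intro i c0 c1 c2 h0 h1 h2 g0 g1 g2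
      by_contra hlt
      obtain ⟨a, ha, hga⟩ := exists_gt_of_mem_convexHull _ c0 (hq i) (not_le.1 hlt)
      obtain ⟨n, hn, rfl⟩ := hmemS i a ha
      rw [H_apply] at hga
      by_cases hn6 : n < 6
      · interval_cases n
        · rw [h0 ha] at hga; norm_num at hga
        · rw [h1 ha] at hga; norm_num at hga
        · rw [h2 ha] at hga; norm_num at hga
        · norm_num at hga; linarith
        · norm_num at hga; linarith
        · norm_num at hga; linarith
      · have h61 : ¬ (n = 1 ∨ n = 4) := by omega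
        have h62 : ¬ (n = 2 ∨ n = 5) := by omega
        have h63 : ¬ n < 3 := by omega
        rw [if_neg h61, if_neg h62, if_neg h63, if_neg hn6] at hga
        have hm6 : (6 : ℝ) ≤ n := by exact_mod_cast (not_lt.1 hn6)
        linarith
    have k0 := key 0 (c 0) (c 1) (c 2) (fun h => if_pos h) (fun h => if_pos h) (fun h => if_pos h)
      (by simp only [c]; split_ifs <;> norm_num) (by simp only [c]; split_ifs <;> norm_num)
      (by simp only [c]; split_ifs <;> norm_num)
    have hneg : ∀ n, pr d n ∈ P 1 → -(c n) = 1 := by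
      intro n hn
      have : pr d n ∉ P 0 := fun h => hd01 n h hn
      simp only [c, if_neg this]; norm_num
    have k1 := key 1 (-(c 0)) (-(c 1)) (-(c 2)) (hneg 0) (hneg 1) (hneg 2)
      (by simp only [c]; split_ifs <;> norm_num) (by simp only [c]; split_ifs <;> norm_num)
      (by simp only [c]; split_ifs <;> norm_num)
    simp only [H, LinearMap.add_apply, LinearMap.smul_apply, LinearMap.proj_apply, smul_eq_mul]
      at k0 k1
    show H hd 0 0 1 q ≤ 0
    simp only [H, LinearMap.add_apply, LinearMap.smul_apply, LinearMap.proj_apply, smul_eq_mul]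
    nlinarith
  have := convexHull_min hle (convex_halfSpace_le (LinearMap.isLinear _) 0) hp
  have h3 : H hd 0 0 1 p = 1 / 3 := by
    simp only [p, map_smul, map_add, H_apply]
    norm_num
  rw [Set.mem_ofPred_eq, h3] at this
  norm_num at this

/-! ### The case `τ = 2`, spanning sets -/

theorem dependence_line {d : ℕ} (S : Finset (Fin d → ℝ)) (hcard : S.card = d + 2)
    (hspan : affineSpan ℝ (S : Set (Fin d → ℝ)) = ⊤) :
    ∃ v : S → ℝ, ∀ w : S → ℝ, ∑ s, w s = 0 → ∑ s, w s • (s : Fin d → ℝ) = 0 →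
      ∃ c : ℝ, w = c • v := by
  classical
  let Φ : (S → ℝ) →ₗ[ℝ] ℝ × (Fin d → ℝ) :=
    { toFun := fun w => (∑ s, w s, ∑ s, w s • (s : Fin d → ℝ))
      map_add' := by
        intro w w'
        simp only [Pi.add_apply, add_smul, Finset.sum_add_distrib, Prod.mk_add_mk]
      map_smul' := by
        intro c w
        simp only [Pi.smul_apply, smul_eq_mul, RingHom.id_apply, Prod.smul_mk, Finset.mul_sum,
          Finset.smul_sum, mul_smul] }
  have hΦ : ∀ w, Φ w = (∑ s, w s, ∑ s, w s • (s : Fin d → ℝ)) := fun _ => rfl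
  have hmem : ∀ s : S, ((1 : ℝ), (s : Fin d → ℝ)) ∈ LinearMap.range Φ := by
    intro s
    refine ⟨Pi.single s 1, ?_⟩
    rw [hΦ]
    simp [Pi.single_apply]
  have hne : S.Nonempty := by
    rw [← Finset.card_pos]; omega
  obtain ⟨s0, hs0⟩ := hne
  have hvs : vectorSpan ℝ (S : Set (Fin d → ℝ)) = ⊤ :=
    (AffineSubspace.affineSpan_eq_top_iff_vectorSpan_eq_top_of_nonempty ℝ _ _
      ⟨s0, hs0⟩).1 hspan
  have hsub : (⊤ : Submodule ℝ (Fin d → ℝ)) ≤
      (LinearMap.range Φ).comap (LinearMap.inr ℝ ℝ (Fin d → ℝ)) := by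
    rw [← hvs, vectorSpan_eq_span_vsub_set_right ℝ (Finset.mem_coe.2 hs0), Submodule.span_le]
    rintro v ⟨s, hs, rfl⟩
    simp only [SetLike.mem_coe, Submodule.mem_comap, LinearMap.inr_apply]
    have := (LinearMap.range Φ).sub_mem (hmem ⟨s, hs⟩) (hmem ⟨s0, hs0⟩)
    simpa using this
  have hsurj : LinearMap.range Φ = ⊤ := by
    rw [eq_top_iff]
    rintro ⟨t, v⟩ _
    have h1 := (LinearMap.range Φ).smul_mem t (hmem ⟨s0, hs0⟩)
    have h2 : ((0 : ℝ), v - t • s0) ∈ LinearMap.range Φ := hsub Submodule.mem_top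
    have := (LinearMap.range Φ).add_mem h1 h2
    simpa using this
  have hrank := LinearMap.finrank_range_add_finrank_ker Φ
  rw [hsurj, finrank_top, Module.finrank_prod] at hrank
  simp only [Module.finrank_self, Module.finrank_fintype_fun_eq_card, Fintype.card_fin,
    Fintype.card_coe, hcard] at hrank
  have hker : Module.finrank ℝ (LinearMap.ker Φ) = 1 := by omega
  obtain ⟨v, _, hv⟩ := finrank_eq_one_iff'.1 hker
  refine ⟨v, fun w h1 h2 => ?_⟩
  have hw : w ∈ LinearMap.ker Φ := by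
    rw [LinearMap.mem_ker, hΦ, h1, h2]; rfl
  obtain ⟨c, hc⟩ := hv ⟨w, hw⟩
  exact ⟨c, by rw [← show ((c • v : LinearMap.ker Φ) : S → ℝ) = w by rw [hc]]; rfl⟩

/-- For every `S ⊆ ℝ^d` with `d + 2` points affinely spanning `ℝ^d`:
`conv D_2(S) = D_2(S) = core_1(S)`. -/
theorem radon_eq (d : ℕ) (S : Finset (Fin d → ℝ)) (hcard : S.card = (2 - 1) * (d + 1) + 1)
    (hspan : affineSpan ℝ (S : Set (Fin d → ℝ)) = ⊤) :
    convexHull ℝ (TverbergPts 2 (S : Set (Fin d → ℝ))) = core (2 - 1) (S : Set (Fin d → ℝ)) := by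
  classical
  apply Set.Subset.antisymm
  · exact convexHull_min (tverberg_subset_core 2 (by omega) _) (core_convex _ _)
  intro p hp
  apply subset_convexHull
  obtain ⟨v, hv⟩ := dependence_line S (by omega) hspan
  -- weights avoiding `x`
  have hw : ∀ x : S, ∃ w : S → ℝ, (∀ s, 0 ≤ w s) ∧ w x = 0 ∧ ∑ s, w s = 1 ∧
      ∑ s, w s • (s : Fin d → ℝ) = p := by
    intro x
    have h := hp {(x : Fin d → ℝ)} (by simp) (by simp)
    have hco : ((S : Set (Fin d → ℝ)) \ (({(x : Fin d → ℝ)} : Finset (Fin d → ℝ)) :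
        Set (Fin d → ℝ))) = ((S.erase x : Finset (Fin d → ℝ)) : Set (Fin d → ℝ)) := by
      rw [Finset.coe_erase, Finset.coe_singleton]
    rw [hco, Finset.mem_convexHull'] at h
    obtain ⟨w, hw0, hw1, hw2⟩ := h
    refine ⟨fun s => if (s : Fin d → ℝ) = x then 0 else w s, ?_, by simp, ?_, ?_⟩
    · intro s
      dsimp only
      split_ifs with h
      · exact le_rfl
      · exact hw0 _ (Finset.mem_erase.2 ⟨h, s.2⟩)
    · rw [← hw1]
      rw [Finset.sum_coe_sort S (fun s => if s = (x : Fin d → ℝ) then 0 else w s)]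
      rw [← Finset.sum_erase S (a := (x : Fin d → ℝ)) (by simp)]
      apply Finset.sum_congr rfl
      intro s hs
      rw [if_neg (Finset.ne_of_mem_erase hs)]
    · rw [← hw2]
      rw [Finset.sum_coe_sort S (fun s => (if s = (x : Fin d → ℝ) then (0 : ℝ) else w s) • s)]
      rw [← Finset.sum_erase S (a := (x : Fin d → ℝ)) (by simp)]
      apply Finset.sum_congr rfl
      intro s hs
      rw [if_neg (Finset.ne_of_mem_erase hs)]
  choose w hw0 hwx hw1 hwp using hw
  have hne : S.Nonempty := by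
    rw [← Finset.card_pos]; omega
  obtain ⟨s0, hs0⟩ := hne
  let x0 : S := ⟨s0, hs0⟩
  have ht : ∀ x, ∃ t : ℝ, w x = w x0 + t • v := by
    intro x
    obtain ⟨t, ht⟩ := hv (w x - w x0) (by
      simp only [Pi.sub_apply, Finset.sum_sub_distrib, hw1, sub_self]) (by
      simp only [Pi.sub_apply, sub_smul, Finset.sum_sub_distrib, hwp, sub_self])
    exact ⟨t, by rw [← ht]; abel⟩
  choose t ht using ht
  obtain ⟨xm, _, hxm⟩ := Finset.exists_min_image (Finset.univ : Finset S) t ⟨x0, Finset.mem_univ _⟩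
  obtain ⟨xM, _, hxM⟩ := Finset.exists_max_image (Finset.univ : Finset S) t ⟨x0, Finset.mem_univ _⟩
  have hval : ∀ x s, w x s = w x0 s + t x * v s := by
    intro x s
    rw [ht x]
    simp
  have hm0 : ∀ s, 0 ≤ v s → w xm s = 0 := by
    intro s hs
    have h1 := hval s s
    rw [hwx s] at h1
    have h2 := hval xm s
    have h3 := hxm s (Finset.mem_univ _)
    have h4 := hw0 xm s
    nlinarith
  have hM0 : ∀ s, v s ≤ 0 → w xM s = 0 := by
    intro s hs
    have h1 := hval s s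
    rw [hwx s] at h1
    have h2 := hval xM s
    have h3 := hxM s (Finset.mem_univ _)
    have h4 := hw0 xM s
    nlinarith
  -- the two parts
  have hmemhull : ∀ (x : S) (A : Set (Fin d → ℝ)), (∀ s : S, (s : Fin d → ℝ) ∉ A → w x s = 0) →
      p ∈ convexHull ℝ A := by
    intro x A hA
    rw [← hwp x]
    rw [← Finset.sum_filter_of_ne (s := Finset.univ) (p := fun s : S => (s : Fin d → ℝ) ∈ A)
      (f := fun s : S => w x s • (s : Fin d → ℝ))]
    · apply (convex_convexHull ℝ A).sum_mem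
      · intro s _; exact hw0 x s
      · rw [← hw1 x]
        rw [Finset.sum_filter_of_ne]
        intro s _ hs
        by_contra hcon
        exact hs (hA s hcon)
      · intro s hs
        exact subset_convexHull ℝ A (Finset.mem_filter.1 hs).2
    · intro s _ hs
      by_contra hcon
      apply hs
      simp only [hA s hcon, zero_smul]
  refine ⟨fun i => if i = 0 then {a | ∃ s : S, (s : Fin d → ℝ) = a ∧ v s < 0}
    else {a | ∃ s : S, (s : Fin d → ℝ) = a ∧ ¬ v s < 0}, ?_, ?_, ?_⟩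
  · have hd : Disjoint {a | ∃ s : S, (s : Fin d → ℝ) = a ∧ v s < 0}
        {a | ∃ s : S, (s : Fin d → ℝ) = a ∧ ¬ v s < 0} := by
      rw [Set.disjoint_left]
      rintro a ⟨s, hs1, hs2⟩ ⟨s', hs1', hs2'⟩
      have : s = s' := Subtype.ext (hs1.trans hs1'.symm)
      exact hs2' (this ▸ hs2)
    intro i j hij
    fin_cases i <;> fin_cases j
    · exact absurd rfl hij
    · simpa using hd
    · simpa using hd.symm
    · exact absurd rfl hij
  · ext a
    rw [Set.mem_iUnion]
    constructor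
    · rintro ⟨i, hi⟩
      fin_cases i
      · obtain ⟨s, hs, _⟩ := (by simpa using hi : a ∈ {a | ∃ s : S, (s : Fin d → ℝ) = a ∧ v s < 0})
        exact hs ▸ s.2
      · obtain ⟨s, hs, _⟩ := (by simpa using hi : a ∈ {a | ∃ s : S, (s : Fin d → ℝ) = a ∧ ¬ v s < 0})
        exact hs ▸ s.2
    · intro ha
      by_cases h : v ⟨a, ha⟩ < 0
      · exact ⟨0, by
          simp only [if_true]
          exact ⟨⟨a, ha⟩, rfl, h⟩⟩
      · exact ⟨1, by
          simp only [one_ne_zero, if_false]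
          exact ⟨⟨a, ha⟩, rfl, h⟩⟩
  · intro i
    fin_cases i
    · apply hmemhull xm
      intro s hs
      apply hm0
      by_contra hcon
      exact hs ⟨s, rfl, not_le.1 hcon⟩
    · apply hmemhull xM
      intro s hs
      apply hM0
      by_contra hcon
      exact hs ⟨s, rfl, by linarith⟩

/-- **Theorem.** (1) For all `d ≥ 3`, `τ ≥ 3` there is `S ⊆ ℝ^d` with exactly `(τ-1)(d+1)+1`
points, affinely spanning `ℝ^d`, with `conv D_τ(S) ⊊ core_{τ-1}(S)`.
(2) For `τ = 2` and all `d ≥ 4` there is `S ⊆ ℝ^d` with exactly `d+2` points and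
`conv D_2(S) ⊊ core_1(S)`.
(3) For `τ = 2`, all `d` and all `S ⊆ ℝ^d` with exactly `d+2` points, affinely spanning `ℝ^d`,
`conv D_2(S) = core_1(S)`. -/
theorem result :
    (∀ d τ : ℕ, 3 ≤ d → 3 ≤ τ →
      ∃ S : Finset (Fin d → ℝ), S.card = (τ - 1) * (d + 1) + 1 ∧
        affineSpan ℝ (S : Set (Fin d → ℝ)) = ⊤ ∧
        convexHull ℝ (TverbergPts τ (S : Set (Fin d → ℝ))) ⊂
          core (τ - 1) (S : Set (Fin d → ℝ))) ∧
    (∀ d : ℕ, 4 ≤ d →
      ∃ S : Finset (Fin d → ℝ), S.card = (2 - 1) * (d + 1) + 1 ∧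
        convexHull ℝ (TverbergPts 2 (S : Set (Fin d → ℝ))) ⊂
          core (2 - 1) (S : Set (Fin d → ℝ))) ∧
    (∀ (d : ℕ) (S : Finset (Fin d → ℝ)), S.card = (2 - 1) * (d + 1) + 1 →
      affineSpan ℝ (S : Set (Fin d → ℝ)) = ⊤ →
      convexHull ℝ (TverbergPts 2 (S : Set (Fin d → ℝ))) =
        core (2 - 1) (S : Set (Fin d → ℝ))) :=
  ⟨three_le, two, radon_eq⟩

end Pool.Agent.Results.MP_8fed12_co.CoreVsTverberg
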